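import Mathlib

/-!
# A hypergroup with all closed subsets strongly subnormal which is not weakly nilpotent

The hypergroup `H` has `21` elements. It has a closed subset `T`, which is the elementary abelian
group of order `9`, and `H // T` is the group of order `5`. For the elements `q ≠ 0` of `ℤ / 5` the
lines `L_q` of `T` are pairwise different (`T` has exactly four lines), and the elements of `H` outside
`T` are the pairs `(q, c)` with `q ≠ 0` and `c ∈ T / L_q`. For suitable isomorphisms
`α_q : T / L_{-q} → T / L_q` with `α_q α_{-q} = 1` the product is given by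
`t (q, c) = (q, t + c)`, `(q, c) t = (q, c + α_q t)`, `(q, c) (-q, d) = c + α_q d ⊆ T` (a coset of `L_q`),
and `(q, c) (r, d) = {(q + r, e) : e}` if `r ≠ -q`. An element `x = (q, c)` has `x x* = L_q` and
`x* x = L_{-q}`, so every closed subset that contains it contains `T` and is equal to `H`; the other closed
subsets are the subgroups of the abelian group `T`, and `T` is strongly normal in `H`. An element `t` of
`T` is central if and only if `α_q t = t` modulo `L_q` for all `q ≠ 0`, and this holds for `t = 0` only.

In the file the multiplication table of `H` is given explicitly; `0, …, 8` are the elements of `T`.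
-/

universe u

namespace Pool.Agent.Results.MP_75e066_al.NotWeaklyNilpotent

section Definitions

variable {H : Type u} (op : H → H → Set H) (e : H) (inv : H → H)

/-- The product `PQ` of two subsets. -/
def sprod (P Q : Set H) : Set H := {x | ∃ p ∈ P, ∃ q ∈ Q, x ∈ op p q}

/-- `(H, op, e, inv)` is a hypergroup: `p (q r) = (p q) r`, `s 1 = {s}`, and `r ∈ p q` implies
`q ∈ p* r` and `p ∈ r q*`. -/
structure IsHypergroup : Prop where
  assoc : ∀ p q r, sprod op {p} (op q r) = sprod op (op p q) {r}
  mul_one : ∀ s, op s e = {s}
  star : ∀ p q r, r ∈ op p q → q ∈ op (inv p) r ∧ p ∈ op r (inv q)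

/-- `F` is closed: nonempty with `F* F ⊆ F`. -/
def IsClosedSubset (F : Set H) : Prop := F.Nonempty ∧ sprod op (inv '' F) F ⊆ F

/-- `F` is normal in `K`: `F h ⊆ h F` for all `h ∈ K`. -/
def NormalIn (F K : Set H) : Prop := ∀ h ∈ K, sprod op F {h} ⊆ sprod op {h} F

/-- `h* F h ⊆ F` for all `h ∈ K`. -/
def StronglyNormalIn (F K : Set H) : Prop := ∀ h ∈ K, sprod op (sprod op {inv h} F) {h} ⊆ F

/-- `F` is subnormal in `H`: there are closed subsets `F = F₀ ⊆ F₁ ⊆ ⋯ ⊆ Fₙ = H`, `n ≥ 1`, with
`F_i` normal in `F_{i+1}`. -/
def Subnormal (F : Set H) : Prop :=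
  ∃ n ≥ 1, ∃ C : ℕ → Set H, C 0 = F ∧ C n = Set.univ ∧ (∀ i ≤ n, IsClosedSubset op inv (C i)) ∧
    ∀ i < n, C i ⊆ C (i + 1) ∧ NormalIn op (C i) (C (i + 1))

/-- `F` is strongly subnormal in `H`: there are closed subsets `F = F₀ ⊆ F₁ ⊆ ⋯ ⊆ Fₙ = H`, `n ≥ 1`,
with `h* F_i h ⊆ F_i` for all `h ∈ F_{i+1}`. -/
def StronglySubnormal (F : Set H) : Prop :=
  ∃ n ≥ 1, ∃ C : ℕ → Set H, C 0 = F ∧ C n = Set.univ ∧ (∀ i ≤ n, IsClosedSubset op inv (C i)) ∧
    ∀ i < n, C i ⊆ C (i + 1) ∧ StronglyNormalIn op inv (C i) (C (i + 1))

/-- The element `h^F = F h F` of the quotient `H // F`. -/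
def dcoset (F : Set H) (h : H) : Set H := sprod op (sprod op F {h}) F

/-- The product `a^F b^F = {x^F : x ∈ a F b}` in the quotient `H // F`. -/
def qprod (F : Set H) (a b : H) : Set (Set H) :=
  {X | ∃ x ∈ sprod op (sprod op {a} F) {b}, X = dcoset op F x}

/-- The upper central series: `Z₀ = {1}`, and `Z_{i+1}` is the set of all `h` such that `h^{Z_i}` is in
the centre of `H // Z_i`, that is, `h^{Z_i}` commutes with all elements of `H // Z_i` and
`(h*)^{Z_i} h^{Z_i} = {1^{Z_i}}`. -/
def upperCentral : ℕ → Set H
  | 0 => {e}
  | n + 1 => {h | (∀ x, qprod op (upperCentral n) h x = qprod op (upperCentral n) x h) ∧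
      qprod op (upperCentral n) (inv h) h = {dcoset op (upperCentral n) e}}

/-- `H` is weakly nilpotent: `Z_n = H` for some `n`. -/
def WeaklyNilpotent : Prop := ∃ n, upperCentral op e inv n = Set.univ

end Definitions

/-! ### The example -/

/-- The multiplication table: in base `2 ^ 21`, the digit number `21 i + j` is the product of `i` and `j`,
a subset of `{0, …, 20}` given by its binary digits. -/
def tab : ℕ :=
  7545849120996840591021119412536903796257183968626509031110652044129109965246451536957524741085146973587056326517394750653470050272236854355920289991998456859614031069654715977172061009155609981129164994135948526169698408880335588684456042852315630445711323638270849582594205137630787892756889404080683783734197866387008125198067466743765692623245748265752628521171935069292183803195454029754405737197449643935064058768064005470217175872086349234035614279454110775956956973388708956921417067128571676174951078671103946597235011701218573139697778949658334208332374591025177630988031308101826608594109944136164540911915373979645302029082418288613079217284291478756813910007348949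3187889490439939297627144010674792554751949793030849029759900339297863537531213347972252194953998276056357645569862293254734266885367654760658362647562369027094535285777704182887633544494931783376941963467181240991340163662931426174202743790553792761459409317194324703744528058516841795182716523370128645082411411833217395789524566155033948978155385170539858368512492317880881369432488109321387965324906368091076937550671407050191915488152883032470248777440070277492853861870434598198507538154136639207968591145197373303836071233609594147957249958523816365790520585879161808420269984661531875210158339255788804569914101502323228400440370712401041470107623825882544725944930602161919143005531840736632383257116831882489927010553412450550932952970223362734498442601363144557628117977417460031203795983908104117158896881973771294957659979155025842428227443658784855628345023604874591531718490573804069700582117953681992150896487517026224874002344758941891428982434672335490425688145308811036237494934395066083493772130877231032609190728662377707476377385735456601466340436471316749303100007390747482444879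6609041285471914516603013181529375017569681674453412715341222141789305657248798070322112366539848183956699763563850444793840500578871313964028929160576009136636683549442053418781362373643004380815884575327529685988807220845044516389807727547170581559282909077057150151587630451242920529695369027918757080329100400027207047957726049775145838060225445417657196407883663034251173195435773803208166665322995966037125124804399198913866166811712355207757537628546649627524962885298240557319917820636598173603129886828237709794639902105142236721557692496933096485606071678665391985699441220754249413810987394259015117948886892951164548268751242570505046010547215276966385261937660794492289263296224090712202642437592436542697704557133645173941789411795919056777327299189376870070436232395529830882705129182460495676888747564768949641392521013946724694339925556645391235932837601959547201305613851381943996361107449538857148146172974357066783892101684594363730925949584282097145545034632665634959669250878167446454273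

/-- The product of `i` and `j` as a number whose binary digits describe the set. -/
def msk (i j : Fin 21) : ℕ := (tab >>> (21 * (21 * i.val + j.val))) % 2097152

/-- The hypergroup operation. -/
def op (i j : Fin 21) : Set (Fin 21) := {k | (msk i j).testBit k.val = true}

/-- The inversion `s ↦ s*`. -/
def inv (i : Fin 21) : Fin 21 := Fin.ofNat 21 ((13123922667448589695823993046080 >>> (5 * i.val)) % 32)

/-- The union of the sets `f x` for `x` in the set `M`. -/
def big (M : ℕ) (f : Fin 21 → ℕ) : ℕ :=
  (List.finRange 21).foldl (fun acc x => if M.testBit x.val then acc ||| f x else acc) 0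

theorem testBit_foldl (M : ℕ) (f : Fin 21 → ℕ) (k : ℕ) (l : List (Fin 21)) (a : ℕ) :
    (l.foldl (fun acc x => if M.testBit x.val then acc ||| f x else acc) a).testBit k = true ↔
      a.testBit k = true ∨ ∃ x ∈ l, M.testBit x.val = true ∧ (f x).testBit k = true := by
  induction l generalizing a with
  | nil => simp
  | cons y l ih =>
    rw [List.foldl_cons, ih]
    by_cases hy : M.testBit y.val = true
    · rw [if_pos hy, Nat.testBit_or, Bool.or_eq_true]
      constructor
      · rintro ((h | h) | ⟨x, hx, h⟩)
        · exact Or.inl h
        · exact Or.inr ⟨y, List.mem_cons_self, hy, h⟩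
        · exact Or.inr ⟨x, List.mem_cons_of_mem _ hx, h⟩
      · rintro (h | ⟨x, hx, h⟩)
        · exact Or.inl (Or.inl h)
        · rcases List.mem_cons.1 hx with rfl | hx
          · exact Or.inl (Or.inr h.2)
          · exact Or.inr ⟨x, hx, h⟩
    · rw [if_neg hy]
      constructor
      · rintro (h | ⟨x, hx, h⟩)
        · exact Or.inl h
        · exact Or.inr ⟨x, List.mem_cons_of_mem _ hx, h⟩
      · rintro (h | ⟨x, hx, h⟩)
        · exact Or.inl h
        · rcases List.mem_cons.1 hx with rfl | hx
          · exact absurd h.1 hy
          · exact Or.inr ⟨x, hx, h⟩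

theorem testBit_big (M : ℕ) (f : Fin 21 → ℕ) (k : ℕ) :
    (big M f).testBit k = true ↔ ∃ x : Fin 21, M.testBit x.val = true ∧ (f x).testBit k = true := by
  unfold big
  rw [testBit_foldl]
  simp

theorem assoc_msk : ∀ p q r : Fin 21,
    big (msk q r) (fun x => msk p x) = big (msk p q) (fun x => msk x r) := by decide +kernel

theorem one_msk : ∀ s : Fin 21, msk s 0 = 2 ^ s.val ∧ msk 0 s = 2 ^ s.val := by decide +kernel

theorem star_msk : ∀ p q r : Fin 21, (msk p q).testBit r.val = true →
    (msk (inv p) r).testBit q.val = true ∧ (msk r (inv q)).testBit p.val = true := by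
  decide +kernel

theorem testBit_two_pow' (s : Fin 21) (k : Fin 21) : (2 ^ s.val).testBit k.val = true ↔ k = s := by
  rw [Nat.testBit_two_pow]
  simp [Fin.ext_iff, eq_comm]

theorem isHypergroup : IsHypergroup op 0 inv where
  assoc p q r := by
    ext k
    have h := assoc_msk p q r
    have h1 := testBit_big (msk q r) (fun x => msk p x) k.val
    have h2 := testBit_big (msk p q) (fun x => msk x r) k.val
    rw [h] at h1
    simp only [sprod, op, Set.mem_singleton_iff, exists_eq_left, Set.mem_ofPred_eq]
    rw [← h1, h2]
  mul_one s := by
    ext k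
    simp only [op, Set.mem_ofPred_eq, (one_msk s).1, Set.mem_singleton_iff]
    exact testBit_two_pow' s k
  star p q r h := star_msk p q r h

/-- The set of all products `a* b` of elements of the set `M`, together with `M`. -/
def stp (M : ℕ) : ℕ := M ||| big M (fun a => big M (fun b => msk (inv a) b))

theorem stp_mem {F : Set (Fin 21)} (hF : IsClosedSubset op inv F) {M : ℕ}
    (hM : ∀ k : Fin 21, M.testBit k.val = true → k ∈ F) :
    ∀ k : Fin 21, (stp M).testBit k.val = true → k ∈ F := by
  intro k hk
  unfold stp at hk
  rw [Nat.testBit_or, Bool.or_eq_true, testBit_big] at hk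
  rcases hk with hk | ⟨a, ha, hk⟩
  · exact hM k hk
  · rw [testBit_big] at hk
    obtain ⟨b, hb, hk⟩ := hk
    exact hF.2 ⟨inv a, ⟨a, hM a ha, rfl⟩, b, hM b hb, hk⟩

theorem stp_full : ∀ x : Fin 21, 9 ≤ x.val → stp (stp (stp (2 ^ x.val))) = 2097151 := by
  decide +kernel

theorem bits_full : ∀ k : Fin 21, (2097151 : ℕ).testBit k.val = true := by decide +kernel

/-- A closed subset with an element outside `T` is everything. -/
theorem eq_univ {F : Set (Fin 21)} (hF : IsClosedSubset op inv F) {x : Fin 21} (hx : x ∈ F)
    (h9 : 9 ≤ x.val) : F = Set.univ := by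
  have h0 : ∀ k : Fin 21, (2 ^ x.val).testBit k.val = true → k ∈ F := by
    intro k hk
    rw [(testBit_two_pow' x k).1 hk]
    exact hx
  have h3 := stp_mem hF (stp_mem hF (stp_mem hF h0))
  rw [stp_full x h9] at h3
  exact Set.eq_univ_of_forall fun k => h3 k (bits_full k)

/-- The closed subset `T`. -/
def T : Set (Fin 21) := {k | k.val < 9}

theorem T_closed_msk : ∀ a b : Fin 21, a.val < 9 → b.val < 9 → msk (inv a) b < 512 := by
  decide +kernel

theorem lt_of_testBit {n : ℕ} (hn : n < 512) {k : Fin 21} (h : n.testBit k.val = true) :
    k.val < 9 := by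
  by_contra hk
  push Not at hk
  have h1 : n < 2 ^ k.val := lt_of_lt_of_le hn
    (by calc (512 : ℕ) = 2 ^ 9 := by norm_num
          _ ≤ 2 ^ k.val := Nat.pow_le_pow_right (by norm_num) hk)
  rw [Nat.testBit_lt_two_pow h1] at h
  exact absurd h (by simp)

theorem T_closed : IsClosedSubset op inv T := by
  refine ⟨⟨0, by simp [T]⟩, ?_⟩
  rintro k ⟨_, ⟨a, ha, rfl⟩, b, hb, hk⟩
  exact lt_of_testBit (T_closed_msk a b ha hb) hk

theorem univ_closed : IsClosedSubset op inv (Set.univ : Set (Fin 21)) :=
  ⟨⟨0, trivial⟩, fun _ _ => trivial⟩

theorem strong_T_msk : ∀ h f : Fin 21, h.val < 9 → f.val < 9 →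
    big (msk (inv h) f) (fun y => msk y h) = 2 ^ f.val := by decide +kernel

theorem strong_msk : ∀ h f : Fin 21, f.val < 9 →
    big (msk (inv h) f) (fun y => msk y h) < 512 := by decide +kernel

theorem normal_T_msk : ∀ h f : Fin 21, h.val < 9 → f.val < 9 → msk f h = msk h f := by
  decide +kernel

theorem normal_msk : ∀ h : Fin 21, big 511 (fun f => msk f h) = big 511 (fun f => msk h f) := by
  decide +kernel

theorem full_msk : ∀ h k : Fin 21, ∃ x : Fin 21, (msk h x).testBit k.val = true := by
  decide +kernel

theorem mem_T_iff : ∀ k : Fin 21, (511 : ℕ).testBit k.val = true ↔ k.val < 9 := by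
  decide +kernel

/-- The chain `F ⊆ T ⊆ H ⊆ H ⊆ ⋯`. -/
def chain (F : Set (Fin 21)) (i : ℕ) : Set (Fin 21) := if i = 0 then F else if i = 1 then T else Set.univ

theorem strongly_F {F : Set (Fin 21)} (hF : F ⊆ T) : StronglyNormalIn op inv F T := by
  rintro h hh k ⟨y, ⟨h', hh', f, hf, hy⟩, h'', hh'', hk⟩
  rw [Set.mem_singleton_iff.1 hh'] at hy
  rw [Set.mem_singleton_iff.1 hh''] at hk
  have h1 := strong_T_msk h f hh (hF hf)
  have h2 : (big (msk (inv h) f) (fun y => msk y h)).testBit k.val = true := by
    rw [testBit_big]
    exact ⟨y, hy, hk⟩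
  rw [h1] at h2
  rw [(testBit_two_pow' f k).1 h2]
  exact hf

theorem strongly_T : StronglyNormalIn op inv T Set.univ := by
  rintro h hh k ⟨y, ⟨h', hh', f, hf, hy⟩, h'', hh'', hk⟩
  rw [Set.mem_singleton_iff.1 hh'] at hy
  rw [Set.mem_singleton_iff.1 hh''] at hk
  have h2 : (big (msk (inv h) f) (fun y => msk y h)).testBit k.val = true := by
    rw [testBit_big]
    exact ⟨y, hy, hk⟩
  exact lt_of_testBit (strong_msk h f hf) h2

theorem normal_F {F : Set (Fin 21)} (hF : F ⊆ T) : NormalIn op F T := by
  rintro h hh k ⟨f, hf, h', hh', hk⟩
  rw [Set.mem_singleton_iff.1 hh'] at hk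
  refine ⟨h, rfl, f, hf, ?_⟩
  have h1 : (msk f h).testBit k.val = true := hk
  rw [normal_T_msk h f hh (hF hf)] at h1
  exact h1

theorem normal_T : NormalIn op T Set.univ := by
  rintro h hh k ⟨f, hf, h', hh', hk⟩
  rw [Set.mem_singleton_iff.1 hh'] at hk
  have h1 : (big 511 (fun f => msk f h)).testBit k.val = true := by
    rw [testBit_big]
    exact ⟨f, (mem_T_iff f).2 hf, hk⟩
  rw [normal_msk h, testBit_big] at h1
  obtain ⟨g, hg, hk'⟩ := h1
  exact ⟨h, rfl, g, (mem_T_iff g).1 hg, hk'⟩

theorem stronglySubnormal {F : Set (Fin 21)} (hF : IsClosedSubset op inv F) :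
    StronglySubnormal op inv F := by
  by_cases hT : F ⊆ T
  · refine ⟨2, by norm_num, chain F, rfl, rfl, ?_, ?_⟩
    · intro i hi
      interval_cases i
      · exact hF
      · exact T_closed
      · exact univ_closed
    · intro i hi
      interval_cases i
      · exact ⟨hT, strongly_F hT⟩
      · exact ⟨fun _ _ => trivial, strongly_T⟩
  · obtain ⟨x, hx, hxT⟩ := Set.not_subset.1 hT
    have h1 : F = Set.univ := eq_univ hF hx (not_lt.1 hxT)
    subst h1
    refine ⟨1, le_rfl, fun _ => Set.univ, rfl, rfl, fun _ _ => univ_closed, ?_⟩
    intro i hi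
    exact ⟨fun _ _ => trivial, fun _ _ _ _ => trivial⟩

theorem subnormal {F : Set (Fin 21)} (hF : IsClosedSubset op inv F) : Subnormal op inv F := by
  by_cases hT : F ⊆ T
  · refine ⟨2, by norm_num, chain F, rfl, rfl, ?_, ?_⟩
    · intro i hi
      interval_cases i
      · exact hF
      · exact T_closed
      · exact univ_closed
    · intro i hi
      interval_cases i
      · exact ⟨hT, normal_F hT⟩
      · exact ⟨fun _ _ => trivial, normal_T⟩
  · obtain ⟨x, hx, hxT⟩ := Set.not_subset.1 hT
    have h1 : F = Set.univ := eq_univ hF hx (not_lt.1 hxT)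
    subst h1
    refine ⟨1, le_rfl, fun _ => Set.univ, rfl, rfl, fun _ _ => univ_closed, ?_⟩
    intro i hi
    refine ⟨fun _ _ => trivial, ?_⟩
    intro h _ k _
    obtain ⟨x, hx⟩ := full_msk h k
    exact ⟨h, rfl, x, trivial, hx⟩

theorem op_zero_left (a : Fin 21) : op 0 a = {a} := by
  ext k
  simp only [op, Set.mem_ofPred_eq, (one_msk a).2, Set.mem_singleton_iff]
  exact testBit_two_pow' a k

theorem op_zero_right (a : Fin 21) : op a 0 = {a} := isHypergroup.mul_one a

theorem dcoset_zero (h : Fin 21) : dcoset op {0} h = {h} := by
  ext k
  simp [dcoset, sprod, op_zero_left, op_zero_right]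

theorem qprod_zero (a b : Fin 21) (X : Set (Fin 21)) :
    X ∈ qprod op {0} a b ↔ ∃ x ∈ op a b, X = {x} := by
  simp [qprod, sprod, op_zero_right, dcoset_zero]

theorem mem_of_qprod {a b c d : Fin 21} (h : qprod op {0} a b = qprod op {0} c d) {x : Fin 21}
    (hx : x ∈ op a b) : x ∈ op c d := by
  have h1 : ({x} : Set (Fin 21)) ∈ qprod op {0} a b := (qprod_zero a b _).2 ⟨x, hx, rfl⟩
  rw [h, qprod_zero] at h1
  obtain ⟨y, hy, hxy⟩ := h1
  rw [Set.singleton_eq_singleton_iff.1 hxy]
  exact hy

theorem center_msk : ∀ h : Fin 21, h ≠ 0 →
    (∃ x k : Fin 21, (msk h x).testBit k.val = true ∧ (msk x h).testBit k.val = false) ∨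
      ∃ k : Fin 21, k ≠ 0 ∧ (msk (inv h) h).testBit k.val = true := by decide +kernel

theorem upperCentral_eq (n : ℕ) : upperCentral op 0 inv n = {0} := by
  induction n with
  | zero => rfl
  | succ n ih =>
    ext h
    constructor
    · intro hh
      change (∀ x, qprod op (upperCentral op 0 inv n) h x = qprod op (upperCentral op 0 inv n) x h) ∧
        qprod op (upperCentral op 0 inv n) (inv h) h = {dcoset op (upperCentral op 0 inv n) 0} at hh
      rw [ih] at hh
      by_contra h0
      rcases center_msk h h0 with ⟨x, k, hk, hk'⟩ | ⟨k, hk0, hk⟩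
      · have h1 : k ∈ op x h := mem_of_qprod (hh.1 x) hk
        have h2 : (msk x h).testBit k.val = true := h1
        rw [hk'] at h2
        exact absurd h2 (by simp)
      · have h1 : ({k} : Set (Fin 21)) ∈ qprod op {0} (inv h) h :=
          (qprod_zero _ _ _).2 ⟨k, hk, rfl⟩
        rw [hh.2, dcoset_zero, Set.mem_singleton_iff, Set.singleton_eq_singleton_iff] at h1
        exact hk0 h1
    · rintro rfl
      change (∀ x, qprod op (upperCentral op 0 inv n) 0 x = qprod op (upperCentral op 0 inv n) x 0) ∧
        qprod op (upperCentral op 0 inv n) (inv 0) 0 = {dcoset op (upperCentral op 0 inv n) 0}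
      rw [ih]
      refine ⟨fun x => ?_, ?_⟩
      · ext X
        rw [qprod_zero, qprod_zero, op_zero_left, op_zero_right]
      · ext X
        rw [qprod_zero, dcoset_zero, op_zero_right, show inv 0 = 0 by decide +kernel]
        simp

/-- **There is a finite hypergroup** (with `21` elements) **all of whose closed subsets are subnormal,
and even strongly subnormal, which is not weakly nilpotent.** -/
theorem result : ∃ (H : Type) (_ : Fintype H) (op : H → H → Set H) (e : H) (inv : H → H),
    IsHypergroup op e inv ∧
      (∀ F : Set H, IsClosedSubset op inv F → Subnormal op inv F ∧ StronglySubnormal op inv F) ∧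
      ¬ WeaklyNilpotent op e inv := by
  refine ⟨Fin 21, inferInstance, op, 0, inv, isHypergroup,
    fun F hF => ⟨subnormal hF, stronglySubnormal hF⟩, ?_⟩
  rintro ⟨n, hn⟩
  rw [upperCentral_eq] at hn
  have h1 : (1 : Fin 21) ∈ ({0} : Set (Fin 21)) := by rw [hn]; trivial
  exact absurd h1 (by decide)

end Pool.Agent.Results.MP_75e066_al.NotWeaklyNilpotent
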